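import Mathlib
import Pool.Agent.Y608.UC.TopsK

/-!
# Poonen's strict form of the union-closed sets conjecture for families with few undominated elements

Let `A` be a finite union-closed family with `m` members. An element `t` dominates an element `x` if
every member containing `x` contains `t`. Let `T` be a set of `k` elements dominating all elements of
the members (for instance one representative for each class of the elements which are dominated only
by equivalent ones; if `A` is separating, the elements dominated by no other one), and let
`r ≤ 2 ^ k` be the number of the traces `T ∩ S` of the members.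

If `m > r ^ (k + 1)`, in particular if `m > 2 ^ (k (k + 1))`, then some element of `T` lies in strictly
more than half of the members. (The power set of a set of `n` elements has `k = n` and
`m = 2 ^ n`, so it does not satisfy the hypothesis.) So Poonen's strengthening holds for all families
with `m` members and less than `√(log₂ m) - 1` undominated elements, and for every `k` only finitely
many separating families with at most `k` undominated elements remain.

Proof. Let `T = {t_1, ..., t_k}`, `ℓ = log m`. For a trace `P` let `A_P` be the set of the members with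
trace `P`, `N_P = |A_P|`, and reveal a uniform random member `S` of `A_P` in `k` steps: in step `i` the
elements of `S` dominated by `t_i`. The entropies `D_P(i)` of the steps (given the previous ones) have
the sum `log N_P`, and `D_P(i) = 0` if `t_i ∉ P`. Let `P, Q` be different traces. If `S ∈ A_P` and
`R ∈ A_Q`, the elements of `S ∪ R` dominated by elements of `P \ Q` are those of `S`, and the elements
of `S ∪ R` dominated by elements of `Q \ P` are those of `R`. Hence there are at most `m` such pairs of
parts, and by submodularity of the entropy
`Σ_{t_i ∈ P \ Q} D_P(i) + Σ_{t_i ∈ Q \ P} D_Q(i) ≤ ℓ`. So the symmetric kernel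
`F(P, Q) = ℓ - Σ_{t_i ∉ Q} D_P(i) - Σ_{t_i ∉ P} D_Q(i)` satisfies `0 ≤ F ≤ ℓ` and `F(P, P) = ℓ`. It is the
sum of `K(P, Q) = ℓ/2 - Σ_i D_P(i) [t_i ∉ Q]`, of rank at most `k + 1`, and its transpose, so with the
weights `p_P = N_P / m` the Cauchy–Schwarz inequality for `F` and the orthogonal projection to the row
space of `K` gives `ℓ² = (2 tr K)² ≤ (k + 1) E F² ≤ (k + 1) ℓ E F`. On the other hand
`E F ≤ ℓ - 2 min_t (1 - d(t)/m) Σ_P p_P log N_P` and `Σ_P p_P log N_P ≥ log m - log r`.
-/

set_option autoImplicit false

namespace Pool.Agent.Results.MP_75f39d_co.DominatingSet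

open Finset

/-- Let `A` be a finite union-closed family with a nonempty member, and `T` a finite set of elements
such that every element `x` of a member is dominated by an element `t` of `T` (every member containing
`x` contains `t`). If `A` has more than `r ^ (|T| + 1)` members, where `r` is the number of different
traces `T ∩ S` of members `S`, in particular if `A` has more than `2 ^ (|T| (|T| + 1))` members, some
element of `T` lies in strictly more than half of the members. -/
theorem result {α : Type*} [DecidableEq α] (A : Finset (Finset α))
    (hunion : ∀ X ∈ A, ∀ Y ∈ A, X ∪ Y ∈ A) (hne : ∃ X ∈ A, X ≠ ∅) (T : Finset α)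
    (hT : ∀ X ∈ A, ∀ x ∈ X, ∃ t ∈ T, ∀ Y ∈ A, x ∈ Y → t ∈ Y) :
    (2 ^ (T.card * (T.card + 1)) < A.card →
      ∃ t ∈ T, A.card < 2 * (A.filter (fun S => t ∈ S)).card) ∧
    ((A.image (fun S => T ∩ S)).card ^ (T.card + 1) < A.card →
      ∃ t ∈ T, A.card < 2 * (A.filter (fun S => t ∈ S)).card) := by
  obtain ⟨X, hX, hX0⟩ := hne
  have hA : A.Nonempty := ⟨X, hX⟩
  have hA2 : A ≠ {∅} := by
    rintro rfl
    exact hX0 (mem_singleton.mp hX)
  have key : (A.image (fun S => T ∩ S)).card ^ (T.card + 1) < A.card →
      ∃ t ∈ T, A.card < 2 * (A.filter (fun S => t ∈ S)).card := by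
    intro h
    obtain ⟨t, ht, _, h2⟩ := Pool.Agent.Y608.UC.TopsK.large hunion hT hA hA2 h.le
    exact ⟨t, ht, h2 h⟩
  refine ⟨fun h => key (lt_of_le_of_lt ?_ h), key⟩
  have h1 : (A.image (fun S => T ∩ S)).card ≤ 2 ^ T.card := by
    rw [← card_powerset]
    refine card_le_card fun P hP => ?_
    obtain ⟨S, _, rfl⟩ := mem_image.mp hP
    exact mem_powerset.mpr inter_subset_left
  calc (A.image (fun S => T ∩ S)).card ^ (T.card + 1) ≤ (2 ^ T.card) ^ (T.card + 1) :=
        Nat.pow_le_pow_left h1 _
    _ = 2 ^ (T.card * (T.card + 1)) := (pow_mul 2 _ _).symm

end Pool.Agent.Results.MP_75f39d_co.DominatingSet
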