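import Mathlib
import Pool.Agent.Y384.UC.Few

set_option autoImplicit false

/-!
# Poonen's strict inequality and the undominated elements

Let `A` be a separating finite union-closed family which is not a power set, and let `T` be the set
of its undominated elements (the elements `t` such that no other element lies in all the members
containing `t`; in the lattice of members these are the minimal meet-irreducible elements). If every
member contains at most two, or at least half, of the elements of `T`, then some element lies in
strictly more than half of the members. In particular this holds if `T` has at most six elements.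
-/

namespace Pool.Agent.Results.MP_75f39d_co.FewUndominated

/-- Poonen's strict inequality for separating union-closed families, not power sets, in which every
member contains at most two or at least half of the undominated elements (the set `T`). If `T` has
at most six elements, the hypothesis `hS` holds automatically. -/
theorem result {α : Type*} [DecidableEq α] (A : Finset (Finset α)) (hne : A.Nonempty)
    (hU : ∀ X ∈ A, ∀ Y ∈ A, X ∪ Y ∈ A)
    (hsep : ∀ x ∈ A.sup id, ∀ y ∈ A.sup id, x ≠ y →
      ∃ S ∈ A, (x ∈ S ∧ y ∉ S) ∨ (y ∈ S ∧ x ∉ S))
    (hpow : A ≠ (A.sup id).powerset)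
    (T : Finset α)
    (hT : ∀ t, t ∈ T ↔ t ∈ A.sup id ∧ ∀ y ∈ A.sup id, (∀ S ∈ A, t ∈ S → y ∈ S) → y = t)
    (hS : ∀ S ∈ A, (S ∩ T).card ≤ 2 ∨ T.card ≤ 2 * (S ∩ T).card) :
    ∃ x ∈ A.sup id, A.card < 2 * (A.filter (fun S => x ∈ S)).card := by
  have hTu : T = Pool.Agent.Y384.UC.Few.und A := by
    ext t
    rw [hT t]
    unfold Pool.Agent.Y384.UC.Few.und
    rw [Finset.mem_filter]
  refine Pool.Agent.Y384.UC.Few.main A hne hU hsep hpow (fun S hSA => ?_)
  rw [← hTu]
  exact hS S hSA

end Pool.Agent.Results.MP_75f39d_co.FewUndominated
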