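import Pool.Agent.Y85.UT.FinalW

set_option autoImplicit false

/-!
# Poonen's strict inequality for families whose light incomparable members have heavy unions

`tops A` is the set of undominated elements of the union of `A` (no other element of the union lies
in all members containing the element).

The theorem contains all families in which the union of two incomparable members is always the
whole union or the largest member avoiding some element (`strict_irreducible` in
`Pool.Agent.Y85.UT.FinalW`), for example those whose lattice has no doubly reducible element.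
-/

namespace Pool.Agent.Results.MP_75f39d_co.SmallUnionTraces

open Finset Pool.Agent.Y85.UT

theorem result {α : Type*} [DecidableEq α] (A : Finset (Finset α)) (hne : A.Nonempty)
    (hU : ∀ X ∈ A, ∀ Y ∈ A, X ∪ Y ∈ A)
    (hsep : ∀ x ∈ A.sup id, ∀ y ∈ A.sup id, x ≠ y →
      ∃ S ∈ A, (x ∈ S ∧ y ∉ S) ∨ (y ∈ S ∧ x ∉ S))
    (hpow : A ≠ (A.sup id).powerset)
    (w : α → ℝ) (hw : ∀ i ∈ tops A, 0 ≤ w i)
    (hq : (0 < ∑ i ∈ tops A, w i ∧ ∀ i ∈ tops A, 4 * w i ≤ ∑ i ∈ tops A, w i) ∨
      ∀ i ∈ tops A, w i = 1)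
    (hI : ∀ X ∈ A, ∀ Y ∈ A, ¬ X ⊆ Y → ¬ Y ⊆ X →
      ∑ i ∈ tops A, w i < 2 * ∑ i ∈ tops A \ X, w i →
      ∑ i ∈ tops A, w i < 2 * ∑ i ∈ tops A \ Y, w i →
      #(tops A \ (X ∪ Y)) ≤ 1 ∨ 4 * ∑ i ∈ tops A \ (X ∪ Y), w i ≤ ∑ i ∈ tops A, w i) :
    ∃ x ∈ A.sup id, A.card < 2 * (A.filter (fun S => x ∈ S)).card := by
  obtain ⟨x, hx, h⟩ := strict_weights A hne hU hsep hpow w hw hq hI
  exact ⟨x, tops_sub A hx, h⟩

end Pool.Agent.Results.MP_75f39d_co.SmallUnionTraces
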