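import Pool.Agent.Y396.Frankl.StrictFinal

set_option autoImplicit false

/-!
# Poonen's strict inequality for the families of subrings and subalgebras

Let `R` be a finite ring or algebra and let `A` be the family of all subsets of `R` whose complement
is a subring (subalgebra). `A` is union-closed. We show: if `A` has at least three members, then some
element of `R` lies in strictly more than half of the members of `A`. This is proved

1. for the subrings of every finite associative ring, with or without unity;
2. for the unital subrings of every finite ring with unity;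
3. for the `S`-subalgebras of every finite associative `S`-algebra, `S` any commutative ring;
4. for the unital `S`-subalgebras of every finite unital associative `S`-algebra.

The hypothesis of at least three members is needed: with at most two subrings no element lies in
strictly more than half of the members.

Proof. Some quotient of `R` is generated by two elements `a, b` that do not lie in a proper subring
`M`. The subrings containing `a` and `b` inject into those avoiding both by `H ↦ H ∩ M`, and a further
subring avoids both: if the quotient is a matrix ring of degree at least 2 it is not contained in `M`,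
and otherwise one generator suffices and an extremal choice of it works.
-/

namespace Pool.Agent.Results.MP_75f39d_co.SubalgebraFamilies

universe u v

theorem result :
    -- subrings of finite rings
    (∀ (R : Type u) [NonUnitalRing R] [Fintype R] [DecidableEq R] (A : Finset (Finset R)),
      (∀ X : Finset R, X ∈ A ↔
        0 ∉ X ∧ ∀ a b : R, a ∉ X → b ∉ X → a - b ∉ X ∧ a * b ∉ X) →
      (∀ X ∈ A, ∀ Y ∈ A, X ∪ Y ∈ A) ∧
        (3 ≤ A.card → ∃ x : R, A.card < 2 * (A.filter fun X => x ∈ X).card)) ∧
    -- unital subrings of finite rings with unity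
    (∀ (R : Type u) [Ring R] [Fintype R] [DecidableEq R] (A : Finset (Finset R)),
      (∀ X : Finset R, X ∈ A ↔
        1 ∉ X ∧ ∀ a b : R, a ∉ X → b ∉ X → a - b ∉ X ∧ a * b ∉ X) →
      (∀ X ∈ A, ∀ Y ∈ A, X ∪ Y ∈ A) ∧
        (3 ≤ A.card → ∃ x : R, A.card < 2 * (A.filter fun X => x ∈ X).card)) ∧
    -- subalgebras of finite algebras
    (∀ (S : Type v) [CommRing S] (R : Type u) [NonUnitalRing R] [Module S R]
      [IsScalarTower S R R] [SMulCommClass S R R] [Fintype R] [DecidableEq R]
      (A : Finset (Finset R)),
      (∀ X : Finset R, X ∈ A ↔ ∃ H : NonUnitalSubalgebra S R, ∀ x, x ∈ X ↔ x ∉ H) →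
      (∀ X ∈ A, ∀ Y ∈ A, X ∪ Y ∈ A) ∧
        (3 ≤ A.card → ∃ x : R, A.card < 2 * (A.filter fun X => x ∈ X).card)) ∧
    -- unital subalgebras of finite unital algebras
    (∀ (S : Type v) [CommRing S] (R : Type u) [Ring R] [Algebra S R] [Fintype R] [DecidableEq R]
      (A : Finset (Finset R)),
      (∀ X : Finset R, X ∈ A ↔ ∃ H : Subalgebra S R, ∀ x, x ∈ X ↔ x ∉ H) →
      (∀ X ∈ A, ∀ Y ∈ A, X ∪ Y ∈ A) ∧
        (3 ≤ A.card → ∃ x : R, A.card < 2 * (A.filter fun X => x ∈ X).card)) :=
  ⟨fun _ _ _ _ A hA => Pool.Agent.Y396.Frankl.strict_ring_family A hA,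
    fun _ _ _ _ A hA => Pool.Agent.Y396.Frankl.strict_unital_ring_family A hA,
    fun S _ _ _ _ _ _ _ _ A hA => Pool.Agent.Y396.Frankl.strict_alg_family S A hA,
    fun S _ _ _ _ _ _ A hA => Pool.Agent.Y396.Frankl.strict_unital_family S A hA⟩

end Pool.Agent.Results.MP_75f39d_co.SubalgebraFamilies
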